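import Pool.Agent.Lib_helper47.Bishop.Defs

set_option autoImplicit false

open MeasureTheory Metric Set

namespace Pool.Agent.Bishop

namespace RSm

/-! ### elementary facts -/

lemma ee_add (a b : ℝ) : ee (a + b) = ee a * ee b := by
  unfold ee
  rw [← Complex.exp_add]
  congr 1
  push_cast
  ring

lemma ee_zero : ee 0 = 1 := by
  simp [ee]

lemma ee_int (n : ℤ) : ee n = 1 := by
  unfold ee
  rw [Complex.exp_eq_one_iff]
  exact ⟨n, by push_cast; ring⟩

lemma norm_ee (a : ℝ) : ‖ee a‖ = 1 := by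
  unfold ee
  rw [show 2 * (Real.pi : ℂ) * Complex.I * (a : ℂ) = ((2 * Real.pi * a : ℝ) : ℂ) * Complex.I by
    push_cast; ring]
  exact Complex.norm_exp_ofReal_mul_I _

lemma continuous_ee : Continuous ee := by
  unfold ee
  exact Complex.continuous_exp.comp (continuous_const.mul Complex.continuous_ofReal)

lemma ee_pow (a : ℝ) (n : ℕ) : ee a ^ n = ee (n * a) := by
  unfold ee
  rw [← Complex.exp_nat_mul]
  congr 1
  push_cast
  ring

/-- `∑_j C(2N,j) 4^{-N} e((j-N)u) = cos(πu)^{2N}` -/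
lemma sum_binom (N : ℕ) (u : ℝ) : ∑ j ∈ Finset.range (2 * N + 1), ((2 * N).choose j : ℂ) / 4 ^ N *
    ee (((j : ℝ) - N) * u) = ((Real.cos (Real.pi * u) ^ (2 * N) : ℝ) : ℂ) := by
  have h1 : ((Real.cos (Real.pi * u) : ℝ) : ℂ) = (ee (u / 2) + ee (-(u / 2))) / 2 := by
    rw [Complex.ofReal_cos, Complex.cos]
    unfold ee
    congr 2
    · congr 1; push_cast; ring
    · congr 1; push_cast; ring
  rw [Complex.ofReal_pow, h1, div_pow, add_pow, Finset.sum_div]
  refine Finset.sum_congr rfl fun j hj => ?_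
  have hj' : j ≤ 2 * N := by
    have := Finset.mem_range.1 hj
    omega
  rw [ee_pow, ee_pow, ← ee_add]
  have h2 : (j : ℝ) * (u / 2) + ((2 * N - j : ℕ) : ℝ) * (-(u / 2)) = ((j : ℝ) - N) * u := by
    rw [Nat.cast_sub hj']
    push_cast
    ring
  rw [h2]
  have h3 : (2 : ℂ) ^ (2 * N) = 4 ^ N := by
    rw [pow_mul]; norm_num
  rw [h3]
  ring

/-- Gaussian lower bound -/
lemma gauss_lower (b h : ℝ) (hb : 0 < b) (hh : 0 < h) :
    √(Real.pi / b) - Real.exp (-(b * h ^ 2 / 2)) * √(2 * Real.pi / b) ≤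
      ∫ u in (-h)..h, Real.exp (-(b * u ^ 2)) := by
  have i1 : Integrable (fun x : ℝ => Real.exp (-b * x ^ 2)) := integrable_exp_neg_mul_sq hb
  have i2 : Integrable (fun x : ℝ => Real.exp (-(b / 2) * x ^ 2)) :=
    integrable_exp_neg_mul_sq (by linarith)
  have e1 : ∫ x : ℝ, Real.exp (-b * x ^ 2) = √(Real.pi / b) := integral_gaussian b
  have e2 : ∫ x : ℝ, Real.exp (-(b / 2) * x ^ 2) = √(2 * Real.pi / b) := by
    rw [integral_gaussian]
    congr 1
    field_simp
  have i3 : Integrable (fun x : ℝ => Real.exp (-b * x ^ 2)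
      - Real.exp (-(b * h ^ 2 / 2)) * Real.exp (-(b / 2) * x ^ 2)) := i1.sub (i2.const_mul _)
  have e3 : ∫ x : ℝ, (Real.exp (-b * x ^ 2)
      - Real.exp (-(b * h ^ 2 / 2)) * Real.exp (-(b / 2) * x ^ 2))
      = √(Real.pi / b) - Real.exp (-(b * h ^ 2 / 2)) * √(2 * Real.pi / b) := by
    rw [integral_sub i1 (i2.const_mul _), integral_const_mul, e1, e2]
  rw [← e3, intervalIntegral.integral_of_le (by linarith), ← integral_indicator measurableSet_Ioc]
  apply integral_mono i3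
  · apply Integrable.indicator _ measurableSet_Ioc
    have : (fun u : ℝ => Real.exp (-(b * u ^ 2))) = (fun x : ℝ => Real.exp (-b * x ^ 2)) := by
      funext x; congr 1; ring
    rw [this]
    exact i1
  · intro x
    show Real.exp (-b * x ^ 2) - Real.exp (-(b * h ^ 2 / 2)) * Real.exp (-(b / 2) * x ^ 2)
      ≤ (Ioc (-h) h).indicator (fun u => Real.exp (-(b * u ^ 2))) x
    have hpos := mul_pos (Real.exp_pos (-(b * h ^ 2 / 2))) (Real.exp_pos (-(b / 2) * x ^ 2))
    by_cases hx : x ∈ Ioc (-h) h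
    · rw [indicator_of_mem hx]
      have : Real.exp (-b * x ^ 2) = Real.exp (-(b * x ^ 2)) := by congr 1; ring
      rw [this]
      linarith
    · rw [indicator_of_notMem hx]
      have hx2 : h ^ 2 ≤ x ^ 2 := by
        rw [mem_Ioc, not_and_or, not_lt, not_le] at hx
        rcases hx with hx | hx
        · nlinarith
        · nlinarith
      rw [← Real.exp_add]
      have : Real.exp (-b * x ^ 2) ≤ Real.exp (-(b * h ^ 2 / 2) + -(b / 2) * x ^ 2) := by
        apply Real.exp_le_exp.2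
        nlinarith
      linarith

/-- Gaussian upper bound -/
lemma gauss_upper (b y c d : ℝ) (hb : 0 < b) (hcd : c ≤ d) :
    ∫ s in c..d, Real.exp (-(b * (y - s) ^ 2)) ≤ √(Real.pi / b) := by
  have i1 : Integrable (fun x : ℝ => Real.exp (-b * x ^ 2)) := integrable_exp_neg_mul_sq hb
  have e1 : ∫ x : ℝ, Real.exp (-b * x ^ 2) = √(Real.pi / b) := integral_gaussian b
  have i2 : Integrable (fun s : ℝ => Real.exp (-(b * (y - s) ^ 2))) := by
    have := i1.comp_sub_left y
    refine this.congr ?_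
    filter_upwards with s
    congr 1; ring
  have e2 : ∫ s : ℝ, Real.exp (-(b * (y - s) ^ 2)) = √(Real.pi / b) := by
    rw [← e1, ← integral_sub_left_eq_self (fun x : ℝ => Real.exp (-b * x ^ 2)) volume y]
    congr 1
    funext s
    congr 1; ring
  rw [← e2, intervalIntegral.integral_of_le hcd]
  apply setIntegral_le_integral i2
  filter_upwards with s
  exact (Real.exp_pos _).le

/-- periodicity -/
lemma per_int {f : ℝ → ℝ} (h : ∀ y, f (y + 1) = f y) (n : ℤ) (y : ℝ) : f (y + n) = f y := by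
  have hp : Function.Periodic f 1 := h
  have := hp.int_mul n y
  rw [mul_one] at this
  exact this

lemma fr_eq (y : ℝ) : fr y = y + ((1 + ⌊-y⌋ : ℤ) : ℝ) := by
  unfold fr
  have := Int.self_sub_floor (-y)
  rw [← this]
  push_cast
  ring

/-- decay -/
lemma decay (N : ℕ) (hN : 1 ≤ N) : √(Real.pi * N) * Real.exp (-(√N / 4)) ≤ 700 / N := by
  have hNr : (0 : ℝ) < N := by exact_mod_cast hN
  have hs : 0 < √(N : ℝ) := Real.sqrt_pos.2 hNr
  have h1 : (√(N : ℝ) / 4) ^ 3 / 6 ≤ Real.exp (√N / 4) := by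
    have := Real.pow_div_factorial_le_exp (√(N : ℝ) / 4) (by positivity) 3
    have h6 : ((Nat.factorial 3 : ℕ) : ℝ) = 6 := by norm_num [Nat.factorial]
    rwa [h6] at this
  have h2 : Real.exp (-(√(N : ℝ) / 4)) ≤ 384 / (N * √N) := by
    rw [Real.exp_neg, inv_le_comm₀ (Real.exp_pos _) (by positivity)]
    refine le_trans (le_of_eq ?_) h1
    have h3 : √(N : ℝ) ^ 2 = N := Real.sq_sqrt hNr.le
    field_simp
    nlinarith
  have h4 : √(Real.pi * N) ≤ 1.8 * √N := by
    rw [Real.sqrt_mul Real.pi_pos.le]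
    apply mul_le_mul_of_nonneg_right _ hs.le
    rw [Real.sqrt_le_left (by norm_num)]
    have := Real.pi_lt_d2
    norm_num
    linarith
  calc √(Real.pi * N) * Real.exp (-(√N / 4)) ≤ (1.8 * √N) * (384 / (N * √N)) :=
        mul_le_mul h4 h2 (Real.exp_pos _).le (by positivity)
    _ = 1.8 * 384 / N := by field_simp
    _ ≤ 700 / N := by
        apply div_le_div_of_nonneg_right _ hNr.le
        norm_num


/-! ### the construction -/

/-- the resonance function -/
noncomputable def kf (q : ℕ) (δ s : ℝ) : ℝ := Ph q s / (q * δ)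

/-- tangent of the tilt -/
noncomputable def tf (q N : ℕ) (δ s : ℝ) : ℝ := om q s / (q * δ) / (2 * Real.pi * N)

/-- the centre -/
noncomputable def af (q N : ℕ) (δ s : ℝ) : ℝ := s + Real.arctan (tf q N δ s) / Real.pi

/-- the weight -/
noncomputable def Af (q N : ℕ) (δ s : ℝ) : ℝ :=
  √(Real.pi * N) * (Real.exp (kf q δ s) * (1 + tf q N δ s ^ 2) ^ N)

lemma Af_nonneg (q N : ℕ) (δ s : ℝ) : 0 ≤ Af q N δ s := by
  unfold Af
  positivity

/-- the Fourier coefficients -/
noncomputable def gf (q N : ℕ) (δ η : ℝ) (l : ℤ) : ℂ :=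
  ∫ s in η..(1 - η), (Af q N δ s : ℂ) *
    (((2 * N).choose (l + N).toNat : ℂ) / 4 ^ N * ee (-(l * af q N δ s)))

section cont

variable {q N : ℕ} {δ η : ℝ}

lemma om_contOn (h2 : M2_Stmt) (hq : 1 ≤ q) (hη : 0 < η) :
    ContinuousOn (om q) (Icc η (1 - η)) := by
  obtain ⟨-, -, -, -, -, -, -, -, -, h, -⟩ := h2
  intro s hs
  exact ((h q hq s (by linarith [hs.1]) (by linarith [hs.2])).1).continuousAt.continuousWithinAt

lemma Ph_cont (h2 : M2_Stmt) (hq : 1 ≤ q) : Continuous (Ph q) := by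
  obtain ⟨-, -, -, -, -, -, -, h, -⟩ := h2
  exact h q hq

lemma tf_contOn (h2 : M2_Stmt) (hq : 1 ≤ q) (hη : 0 < η) :
    ContinuousOn (tf q N δ) (Icc η (1 - η)) := by
  unfold tf
  exact ((om_contOn h2 hq hη).div_const _).div_const _

lemma af_contOn (h2 : M2_Stmt) (hq : 1 ≤ q) (hη : 0 < η) :
    ContinuousOn (af q N δ) (Icc η (1 - η)) := by
  unfold af
  exact continuousOn_id.add
    ((Real.continuous_arctan.comp_continuousOn (tf_contOn h2 hq hη)).div_const _)

lemma kf_cont (h2 : M2_Stmt) (hq : 1 ≤ q) : Continuous (kf q δ) := by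
  unfold kf
  exact (Ph_cont h2 hq).div_const _

lemma Af_contOn (h2 : M2_Stmt) (hq : 1 ≤ q) (hη : 0 < η) :
    ContinuousOn (Af q N δ) (Icc η (1 - η)) := by
  unfold Af
  refine continuousOn_const.mul ((Real.continuous_exp.comp (kf_cont h2 hq)).continuousOn.mul ?_)
  exact (continuousOn_const.add ((tf_contOn h2 hq hη).pow 2)).pow N

end cont

/-- reindexing and exchange of the sum and the integral -/
lemma sum_form (h2 : M2_Stmt) {q N : ℕ} {δ η : ℝ} (hq : 1 ≤ q) (hη : 0 < η) (hη2 : η ≤ 1 / 2)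
    (y : ℝ) (X : ℤ → ℂ) :
    ∑ l ∈ Finset.Icc (-(N : ℤ)) N, gf q N δ η l * ee (l * y) * X l =
      ∫ s in η..(1 - η), (Af q N δ s : ℂ) * ∑ j ∈ Finset.range (2 * N + 1),
        ((2 * N).choose j : ℂ) / 4 ^ N *
          (ee (((j : ℝ) - N) * (y - af q N δ s)) * X ((j : ℤ) - N)) := by
  have hle : η ≤ 1 - η := by linarith
  have hu : Set.uIcc η (1 - η) = Icc η (1 - η) := Set.uIcc_of_le hle
  -- integrand of one term
  have hint : ∀ j : ℕ, IntervalIntegrable (fun s => (Af q N δ s : ℂ) *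
      (((2 * N).choose j : ℂ) / 4 ^ N *
        (ee (((j : ℝ) - N) * (y - af q N δ s)) * X ((j : ℤ) - N)))) volume η (1 - η) := by
    intro j
    apply ContinuousOn.intervalIntegrable
    rw [hu]
    refine (Complex.continuous_ofReal.comp_continuousOn (Af_contOn h2 hq hη)).mul
      (continuousOn_const.mul (ContinuousOn.mul ?_ continuousOn_const))
    exact continuous_ee.comp_continuousOn (continuousOn_const.mul
      (continuousOn_const.sub (af_contOn h2 hq hη)))
  have h1 : (∫ s in η..(1 - η), (Af q N δ s : ℂ) * ∑ j ∈ Finset.range (2 * N + 1),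
        ((2 * N).choose j : ℂ) / 4 ^ N *
          (ee (((j : ℝ) - N) * (y - af q N δ s)) * X ((j : ℤ) - N)))
      = ∑ j ∈ Finset.range (2 * N + 1), ∫ s in η..(1 - η), (Af q N δ s : ℂ) *
        (((2 * N).choose j : ℂ) / 4 ^ N *
          (ee (((j : ℝ) - N) * (y - af q N δ s)) * X ((j : ℤ) - N))) := by
    rw [← intervalIntegral.integral_finsetSum (fun j _ => hint j)]
    congr 1
    funext s
    rw [Finset.mul_sum]
  rw [h1]
  symm
  refine Finset.sum_bij (fun (j : ℕ) _ => (j : ℤ) - N) ?_ ?_ ?_ ?_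
  · intro j hj
    rw [Finset.mem_range] at hj
    rw [Finset.mem_Icc]
    omega
  · intro i _ j _ h
    have h' : (i : ℤ) - N = (j : ℤ) - N := h
    omega
  · intro l hl
    rw [Finset.mem_Icc] at hl
    refine ⟨(l + N).toNat, ?_, ?_⟩
    · rw [Finset.mem_range]
      omega
    · show (((l + N).toNat : ℕ) : ℤ) - N = l
      omega
  · intro j hj
    have e1 : ((j : ℤ) - N + N).toNat = j := by simp
    unfold gf
    rw [e1, mul_assoc, ← intervalIntegral.integral_mul_const]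
    congr 1
    funext s
    have e2 : ee (((j : ℝ) - N) * (y - af q N δ s))
        = ee (-((((j : ℤ) - N : ℤ) : ℝ) * af q N δ s)) * ee ((((j : ℤ) - N : ℤ) : ℝ) * y) := by
      rw [← ee_add]
      congr 1
      push_cast
      ring
    rw [e2]
    ring


/-! ### bounds for `PP` -/

lemma cos_pow_shift (u : ℝ) (n : ℤ) (N : ℕ) :
    Real.cos (Real.pi * (u + n)) ^ (2 * N) = Real.cos (Real.pi * u) ^ (2 * N) := by
  have h : Real.pi * (u + n) = Real.pi * u + n * Real.pi := by ring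
  rw [h, Real.cos_add_int_mul_pi, mul_pow, pow_mul ((-1 : ℝ) ^ n), ← zpow_natCast ((-1 : ℝ) ^ n),
    ← zpow_mul]
  have : ((-1 : ℝ) ^ (n * (2 : ℕ))) = 1 := by
    rw [mul_comm, zpow_mul]
    norm_num
  rw [this, one_pow, one_mul]

lemma PP_shift (N : ℕ) (u δ : ℝ) (n : ℤ) (Ψ : ℂ → ℂ) : PP N (u + n) δ Ψ = PP N u δ Ψ := by
  unfold PP
  refine Finset.sum_congr rfl fun j _ => ?_
  have h : ((j : ℝ) - N) * (u + n) = ((j : ℝ) - N) * u + ((((j : ℤ) - N) * n : ℤ) : ℝ) := by
    push_cast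
    ring
  rw [h, ee_add, ee_int, mul_one]

lemma PP_bound {C : ℝ} (hC : 0 ≤ C) (h9 : ∀ (N : ℕ) (u δ R M : ℝ) (Ψ : ℂ → ℂ), 1 ≤ N → 0 < R →
    N * |δ| ≤ R / 16 → DifferentiableOn ℂ Ψ (ball 0 R) → (∀ z ∈ ball (0 : ℂ) R, ‖Ψ z‖ ≤ M) →
    (|u| ≤ 1 / 4 → ‖PP N u δ Ψ - (Real.cos (Real.pi * u) ^ (2 * N) : ℝ) * Ψ 0‖ ≤
      Real.cos (Real.pi * u) ^ (2 * N) * (C * (N * |δ| / R) * M)) ∧
    (1 / 4 ≤ |u| → |u| ≤ 1 / 2 → ‖PP N u δ Ψ‖ ≤ C * (3 / 4) ^ N * M))
    (N : ℕ) (u δ R M : ℝ) (Ψ : ℂ → ℂ) (hN : 1 ≤ N) (hR : 0 < R)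
    (hNd : N * |δ| ≤ R / 16) (hd : DifferentiableOn ℂ Ψ (ball 0 R))
    (hM : ∀ z ∈ ball (0 : ℂ) R, ‖Ψ z‖ ≤ M) :
    ‖PP N u δ Ψ‖ ≤ Real.cos (Real.pi * u) ^ (2 * N) * ((1 + C * (N * |δ| / R)) * M)
      + C * (3 / 4) ^ N * M := by
  have hM0 : 0 ≤ M := (norm_nonneg _).trans (hM 0 (mem_ball_self hR))
  set u' := u - round u with hu'
  have hu : u = u' + (round u : ℤ) := by rw [hu']; ring
  have habs : |u'| ≤ 1 / 2 := abs_sub_round u
  rw [hu, PP_shift, cos_pow_shift]
  obtain ⟨h1, h3⟩ := h9 N u' δ R M Ψ hN hR hNd hd hM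
  have hcos : 0 ≤ Real.cos (Real.pi * u') ^ (2 * N) := by
    rw [pow_mul]; positivity
  have hpos : 0 ≤ C * (3 / 4) ^ N * M := by positivity
  have hpos2 : 0 ≤ C * (N * |δ| / R) * M := by positivity
  rcases le_total |u'| (1 / 4) with h | h
  · have h4 := h1 h
    have h5 : ‖((Real.cos (Real.pi * u') ^ (2 * N) : ℝ) : ℂ) * Ψ 0‖
        ≤ Real.cos (Real.pi * u') ^ (2 * N) * M := by
      rw [norm_mul, Complex.norm_real, Real.norm_of_nonneg hcos]
      exact mul_le_mul_of_nonneg_left (hM 0 (mem_ball_self hR)) hcos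
    have h6 : ‖PP N u' δ Ψ‖ ≤ ‖PP N u' δ Ψ - ((Real.cos (Real.pi * u') ^ (2 * N) : ℝ) : ℂ) * Ψ 0‖
        + ‖((Real.cos (Real.pi * u') ^ (2 * N) : ℝ) : ℂ) * Ψ 0‖ := by
      have := norm_add_le (PP N u' δ Ψ - ((Real.cos (Real.pi * u') ^ (2 * N) : ℝ) : ℂ) * Ψ 0)
        (((Real.cos (Real.pi * u') ^ (2 * N) : ℝ) : ℂ) * Ψ 0)
      rwa [sub_add_cancel] at this
    calc ‖PP N u' δ Ψ‖ ≤ _ := h6
      _ ≤ Real.cos (Real.pi * u') ^ (2 * N) * (C * (N * |δ| / R) * M)
          + Real.cos (Real.pi * u') ^ (2 * N) * M := add_le_add h4 h5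
      _ = Real.cos (Real.pi * u') ^ (2 * N) * ((1 + C * (N * |δ| / R)) * M) := by ring
      _ ≤ _ := le_add_of_nonneg_right hpos
  · refine (h3 h habs).trans (le_add_of_nonneg_left ?_)
    apply mul_nonneg hcos
    have : 0 ≤ M + C * (N * |δ| / R) * M := by linarith
    linarith

/-! ### the two integral estimates -/

/-- `√(πN) e^{k(s)-k(y)} (1+t²)^N cos^{2N}` -/
noncomputable def ef (q N : ℕ) (δ s y : ℝ) : ℝ :=
  Real.exp (Ph q s / (q * δ) - Ph q y / (q * δ)) * (1 + tf q N δ s ^ 2) ^ N *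
    Real.cos (Real.pi * (y - s) - Real.arctan (tf q N δ s)) ^ (2 * N)

lemma Af_cos (q N : ℕ) (δ s y : ℝ) :
    Real.exp (-(kf q δ y)) * (Af q N δ s * Real.cos (Real.pi * (y - af q N δ s)) ^ (2 * N))
      = √(Real.pi * N) * ef q N δ s y := by
  have h1 : Real.pi * (y - af q N δ s)
      = Real.pi * (y - s) - Real.arctan (tf q N δ s) := by
    unfold af
    have := Real.pi_pos.ne'
    field_simp
    ring
  have h3 : Real.exp (Ph q s / (q * δ) - Ph q y / (q * δ))
      = Real.exp (kf q δ s) * Real.exp (-(kf q δ y)) := by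
    rw [← Real.exp_add]
    unfold kf
    congr 1
  rw [h1]
  unfold Af ef
  rw [h3]
  ring

lemma ef_nonneg (q N : ℕ) (δ s y : ℝ) : 0 ≤ ef q N δ s y := by
  unfold ef
  rw [pow_mul (Real.cos _)]
  positivity

lemma ef_contOn (h2 : M2_Stmt) {q N : ℕ} {δ η : ℝ} (y : ℝ) (hq : 1 ≤ q) (hη : 0 < η) :
    ContinuousOn (fun s => ef q N δ s y) (Icc η (1 - η)) := by
  unfold ef
  have hk := Ph_cont h2 hq
  refine ContinuousOn.mul (ContinuousOn.mul ?_ ?_) ?_
  · exact (Real.continuous_exp.comp ((hk.div_const _).sub continuous_const)).continuousOn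
  · exact (continuousOn_const.add ((tf_contOn h2 hq hη).pow 2)).pow N
  · refine ContinuousOn.pow (Real.continuous_cos.comp_continuousOn ?_) _
    exact (continuousOn_const.mul (continuousOn_const.sub continuousOn_id)).sub
      (Real.continuous_arctan.comp_continuousOn (tf_contOn h2 hq hη))

/-- the facts used about one parameter set -/
structure Good (q N : ℕ) (δ η : ℝ) : Prop where
  hq : 1 ≤ q
  hN : 1 ≤ N
  hη : 0 < η
  hη2 : η ≤ 1 / 4
  near : ∀ s ∈ Icc η (1 - η), ∀ y ∈ Icc (0 : ℝ) 1, |y - s| ≤ η / 2 →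
    Real.exp (-((1 + η) * Real.pi ^ 2 * N * (y - s) ^ 2)) ≤ ef q N δ s y ∧
    ef q N δ s y ≤ Real.exp (-((1 - η) * Real.pi ^ 2 * N * (y - s) ^ 2))
  far : ∀ s ∈ Icc η (1 - η), ∀ y ∈ Icc (0 : ℝ) 1, η / 2 ≤ |y - s| →
    ef q N δ s y ≤ Real.exp (-(N * η ^ 2 / 4))

lemma upper (h2 : M2_Stmt) {q N : ℕ} {δ η : ℝ} (h : Good q N δ η) (y : ℝ)
    (hy : y ∈ Icc (0 : ℝ) 1) :
    ∫ s in η..(1 - η), √(Real.pi * N) * ef q N δ s y ≤
      √(1 / (1 - η)) + √(Real.pi * N) * Real.exp (-(N * η ^ 2 / 4)) := by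
  obtain ⟨hq, hN, hη, hη2, hnear, hfar⟩ := h
  have hle : η ≤ 1 - η := by linarith
  have hu : Set.uIcc η (1 - η) = Icc η (1 - η) := Set.uIcc_of_le hle
  have hNr : (0 : ℝ) < N := by exact_mod_cast hN
  set b := (1 - η) * Real.pi ^ 2 * N with hb
  have hb0 : 0 < b := by
    have := Real.pi_pos
    have : 0 < 1 - η := by linarith
    positivity
  have c1 : Continuous (fun s : ℝ => Real.exp (-(b * (y - s) ^ 2))) := by fun_prop
  have h1 : ∫ s in η..(1 - η), ef q N δ s y ≤
      ∫ s in η..(1 - η), (Real.exp (-(b * (y - s) ^ 2)) + Real.exp (-(N * η ^ 2 / 4))) := by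
    apply intervalIntegral.integral_mono_on hle
    · apply ContinuousOn.intervalIntegrable
      rw [hu]
      exact ef_contOn h2 y hq hη
    · exact (c1.add continuous_const).intervalIntegrable _ _
    · intro s hs
      rcases le_total |y - s| (η / 2) with h | h
      · exact ((hnear s hs y hy h).2).trans (le_add_of_nonneg_right (Real.exp_pos _).le)
      · exact (hfar s hs y hy h).trans (le_add_of_nonneg_left (Real.exp_pos _).le)
  rw [intervalIntegral.integral_const_mul]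
  have h3 : ∫ s in η..(1 - η), (Real.exp (-(b * (y - s) ^ 2)) + Real.exp (-(N * η ^ 2 / 4)))
      ≤ √(Real.pi / b) + Real.exp (-(N * η ^ 2 / 4)) := by
    rw [intervalIntegral.integral_add (c1.intervalIntegrable _ _)
      (continuous_const.intervalIntegrable _ _), intervalIntegral.integral_const]
    apply add_le_add (gauss_upper b y η (1 - η) hb0 hle)
    rw [smul_eq_mul]
    have h4 : 0 < Real.exp (-(N * η ^ 2 / 4)) := Real.exp_pos _
    nlinarith
  have h5 : √(Real.pi * N) * √(Real.pi / b) = √(1 / (1 - η)) := by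
    rw [← Real.sqrt_mul (by positivity)]
    congr 1
    rw [hb]
    have : 1 - η ≠ 0 := by linarith
    have := Real.pi_pos.ne'
    field_simp
  calc √(Real.pi * N) * ∫ s in η..(1 - η), ef q N δ s y
      ≤ √(Real.pi * N) * (√(Real.pi / b) + Real.exp (-(N * η ^ 2 / 4))) :=
        mul_le_mul_of_nonneg_left (h1.trans h3) (Real.sqrt_nonneg _)
    _ = _ := by rw [mul_add, h5]

lemma lower (h2 : M2_Stmt) {q N : ℕ} {δ η : ℝ} (h : Good q N δ η) (y : ℝ)
    (hy : 2 * η ≤ y) (hy2 : y ≤ 1 - 2 * η) :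
    √(1 / (1 + η)) - 2 * Real.exp (-(N * η ^ 2)) ≤
      ∫ s in η..(1 - η), √(Real.pi * N) * ef q N δ s y := by
  obtain ⟨hq, hN, hη, hη2, hnear, hfar⟩ := h
  have hle : η ≤ 1 - η := by linarith
  have hNr : (0 : ℝ) < N := by exact_mod_cast hN
  have hu : Set.uIcc η (1 - η) = Icc η (1 - η) := Set.uIcc_of_le hle
  have hy01 : y ∈ Icc (0 : ℝ) 1 := ⟨by linarith, by linarith⟩
  set b := (1 + η) * Real.pi ^ 2 * N with hb
  have hpi := Real.pi_pos
  have hb0 : 0 < b := by positivity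
  have hint : IntervalIntegrable (fun s => ef q N δ s y) volume η (1 - η) := by
    apply ContinuousOn.intervalIntegrable
    rw [hu]
    exact ef_contOn h2 y hq hη
  rw [intervalIntegral.integral_const_mul]
  have h1 : ∫ s in (y - η / 2)..(y + η / 2), Real.exp (-(b * (y - s) ^ 2))
      ≤ ∫ s in η..(1 - η), ef q N δ s y := by
    have hsub : Set.uIcc (y - η / 2) (y + η / 2) ⊆ Set.uIcc η (1 - η) := by
      rw [hu, Set.uIcc_of_le (by linarith)]
      exact Set.Icc_subset_Icc (by linarith) (by linarith)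
    have h3 : ∫ s in (y - η / 2)..(y + η / 2), ef q N δ s y ≤ ∫ s in η..(1 - η), ef q N δ s y := by
      apply intervalIntegral.integral_mono_interval (by linarith) (by linarith) (by linarith)
      · exact Filter.Eventually.of_forall fun s => ef_nonneg _ _ _ _ _
      · exact hint
    refine le_trans ?_ h3
    apply intervalIntegral.integral_mono_on (by linarith)
    · have c1 : Continuous (fun s : ℝ => Real.exp (-(b * (y - s) ^ 2))) := by fun_prop
      exact c1.intervalIntegrable _ _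
    · exact hint.mono_set hsub
    · intro s hs
      refine (hnear s ⟨by linarith [hs.1], by linarith [hs.2]⟩ y hy01 ?_).1
      rw [abs_le]
      constructor <;> linarith [hs.1, hs.2]
  have h4 : ∫ s in (y - η / 2)..(y + η / 2), Real.exp (-(b * (y - s) ^ 2))
      = ∫ u in (-(η / 2))..(η / 2), Real.exp (-(b * u ^ 2)) := by
    have := intervalIntegral.integral_comp_sub_left
      (fun u : ℝ => Real.exp (-(b * u ^ 2))) y (a := y - η / 2) (b := y + η / 2)
    rw [this]
    congr 1 <;> ring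
  have h5 := gauss_lower b (η / 2) hb0 (by linarith)
  have h6 : √(Real.pi * N) * √(Real.pi / b) = √(1 / (1 + η)) := by
    rw [← Real.sqrt_mul (by positivity)]
    congr 1
    rw [hb]
    have : 1 + η ≠ 0 := by linarith
    field_simp
  have h7 : √(Real.pi * N) * √(2 * Real.pi / b) ≤ 2 := by
    rw [← Real.sqrt_mul (by positivity), Real.sqrt_le_left (by norm_num), hb]
    have e : Real.pi * N * (2 * Real.pi / ((1 + η) * Real.pi ^ 2 * N)) = 2 / (1 + η) := by
      have : 1 + η ≠ 0 := by linarith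
      field_simp
    rw [e, div_le_iff₀ (by linarith)]
    linarith
  have h8 : Real.exp (-(b * (η / 2) ^ 2 / 2)) ≤ Real.exp (-(N * η ^ 2)) := by
    apply Real.exp_le_exp.2
    rw [neg_le_neg_iff, hb]
    have h9 : 8 ≤ Real.pi ^ 2 := by
      have := Real.pi_gt_three
      nlinarith
    have h10 : 8 * (N * η ^ 2) ≤ (1 + η) * Real.pi ^ 2 * N * η ^ 2 := by
      have : 8 ≤ (1 + η) * Real.pi ^ 2 := by nlinarith
      have h11 : 0 ≤ (N : ℝ) * η ^ 2 := by positivity
      nlinarith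
    nlinarith
  have hs : 0 ≤ √(Real.pi * N) := Real.sqrt_nonneg _
  calc √(1 / (1 + η)) - 2 * Real.exp (-(N * η ^ 2))
      ≤ √(Real.pi * N) * √(Real.pi / b)
        - Real.exp (-(b * (η / 2) ^ 2 / 2)) * (√(Real.pi * N) * √(2 * Real.pi / b)) := by
        rw [h6]
        have hh : Real.exp (-(b * (η / 2) ^ 2 / 2)) * (√(Real.pi * N) * √(2 * Real.pi / b))
            ≤ Real.exp (-(N * η ^ 2)) * 2 :=
          mul_le_mul h8 h7 (by positivity) (Real.exp_pos _).le
        linarith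
    _ = √(Real.pi * N) * (√(Real.pi / b)
        - Real.exp (-(b * (η / 2) ^ 2 / 2)) * √(2 * Real.pi / b)) := by ring
    _ ≤ √(Real.pi * N) * ∫ s in η..(1 - η), ef q N δ s y := by
        apply mul_le_mul_of_nonneg_left _ hs
        rw [h4] at h1
        exact h5.trans h1

/-! ### parameters -/

/-- `x = q^{-1/16}` -/
noncomputable def xq (q : ℕ) : ℝ := (q : ℝ) ^ (-(1 / 16) : ℝ)

lemma xq_pow {q : ℕ} (hq : 1 ≤ q) (n : ℕ) (e : ℝ) (h : -(1 / 16) * (n : ℝ) = e) :
    (q : ℝ) ^ e = xq q ^ n := by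
  have hq0 : (0 : ℝ) ≤ q := by positivity
  unfold xq
  rw [← Real.rpow_natCast, ← Real.rpow_mul hq0, h]

lemma xq_pos {q : ℕ} (hq : 1 ≤ q) : 0 < xq q := by
  have : (0 : ℝ) < q := by exact_mod_cast hq
  unfold xq
  positivity

lemma exists_small (x0 : ℝ) (h : 0 < x0) : ∃ q₀ : ℕ, 1 ≤ q₀ ∧ ∀ q : ℕ, q₀ ≤ q → xq q ≤ x0 := by
  have h1 : Filter.Tendsto (fun q : ℕ => (q : ℝ) ^ (-(1 / 16) : ℝ)) Filter.atTop (nhds 0) :=
    (tendsto_rpow_neg_atTop (by norm_num : (0 : ℝ) < 1 / 16)).comp tendsto_natCast_atTop_atTop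
  have h2 := h1.eventually (ge_mem_nhds h)
  obtain ⟨q1, hq1⟩ := Filter.eventually_atTop.1 h2
  exact ⟨max q1 1, le_max_right _ _, fun q hq => hq1 q ((le_max_left _ _).trans hq)⟩

lemma exp_small : (3 / 4 : ℝ) ≤ Real.exp (-0.26) := by
  have h1 : (0.87 : ℝ) ≤ Real.exp (-0.13) := by
    have := Real.add_one_le_exp (-0.13 : ℝ)
    linarith
  have h2 : Real.exp (-0.26 : ℝ) = Real.exp (-0.13) * Real.exp (-0.13) := by
    rw [← Real.exp_add]; norm_num
  rw [h2]
  nlinarith

lemma three_quarter (N : ℕ) : (3 / 4 : ℝ) ^ N * Real.exp (N / 100) ≤ Real.exp (-(√N / 4)) := by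
  have h1 : (3 / 4 : ℝ) ^ N ≤ Real.exp (-0.26) ^ N :=
    pow_le_pow_left₀ (by norm_num) exp_small N
  have hN : √(N : ℝ) ≤ N := by
    rcases Nat.eq_zero_or_pos N with rfl | h
    · simp
    · have : (1 : ℝ) ≤ N := by exact_mod_cast h
      rw [Real.sqrt_le_left (by linarith)]
      nlinarith
  calc (3 / 4 : ℝ) ^ N * Real.exp (N / 100) ≤ Real.exp (-0.26) ^ N * Real.exp (N / 100) :=
        mul_le_mul_of_nonneg_right h1 (Real.exp_pos _).le
    _ = Real.exp (-(N / 4)) := by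
        rw [← Real.exp_nat_mul, ← Real.exp_add]
        congr 1
        ring
    _ ≤ Real.exp (-(√N / 4)) := by
        apply Real.exp_le_exp.2
        linarith

/-- the function `m` -/
noncomputable def mf (q N : ℕ) (δ η y : ℝ) : ℝ :=
  ∫ s in η..(1 - η), √(Real.pi * N) * ef q N δ s y

lemma mf_eq (q N : ℕ) (δ η y : ℝ) : mf q N δ η y = Real.exp (-(kf q δ y)) *
    ∫ s in η..(1 - η), Af q N δ s * Real.cos (Real.pi * (y - af q N δ s)) ^ (2 * N) := by
  unfold mf
  rw [← intervalIntegral.integral_const_mul]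
  congr 1
  funext s
  exact (Af_cos q N δ s y).symm

lemma mf_per (h2 : M2_Stmt) {q : ℕ} (hq : 1 ≤ q) (N : ℕ) (δ η y : ℝ) (n : ℤ) :
    mf q N δ η (y + n) = mf q N δ η y := by
  obtain ⟨-, -, -, -, -, hP, -⟩ := h2
  rw [mf_eq, mf_eq]
  have h1 : kf q δ (y + n) = kf q δ y := by
    unfold kf
    rw [per_int (hP q hq) n y]
  rw [h1]
  congr 2
  funext s
  have : y + n - af q N δ s = (y - af q N δ s) + n := by ring
  rw [this, cos_pow_shift]

end RSm

open RSm

theorem RS (h2 : M2_Stmt) (h8 : M8_Stmt) (h9 : M9_Stmt) : RS_Stmt := by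
  obtain ⟨C, hC, h9⟩ := h9
  obtain ⟨q8, h8⟩ := h8
  -- threshold
  set x0 : ℝ := 1 / (2200 * (C + 1)) with hx0
  have hx0pos : 0 < x0 := by positivity
  obtain ⟨q1, hq1, hsmall⟩ := exists_small x0 hx0pos
  refine ⟨max q1 q8, le_max_of_le_left hq1, ?_⟩
  intro q hqq δ hδ hδq
  have hq : 1 ≤ q := hq1.trans ((le_max_left _ _).trans hqq)
  have hq8 : q8 ≤ q := (le_max_right _ _).trans hqq
  have hqr : (0 : ℝ) < q := by exact_mod_cast hq
  set x := xq q with hxdef
  have hx : 0 < x := xq_pos hq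
  have hxx0 : x ≤ x0 := hsmall q ((le_max_left _ _).trans hqq)
  have hxC : x * (2200 * (C + 1)) ≤ 1 := by
    have := mul_le_mul_of_nonneg_right hxx0 (show 0 ≤ 2200 * (C + 1) by positivity)
    refine this.trans (le_of_eq ?_)
    rw [hx0]
    field_simp
  have hx2200 : x * 2200 ≤ 1 := by nlinarith
  have hx1 : x ≤ 1 / 2200 := by linarith
  have e8 : (q : ℝ) ^ (-(1 / 8) : ℝ) = x ^ 2 := xq_pow hq 2 _ (by norm_num)
  have e4 : (q : ℝ) ^ (-(1 / 4) : ℝ) = x ^ 4 := xq_pow hq 4 _ (by norm_num)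
  have e2 : (q : ℝ) ^ (-(1 / 2) : ℝ) = x ^ 8 := xq_pow hq 8 _ (by norm_num)
  have e16 : (q : ℝ) ^ (-(1 / 16) : ℝ) = x := rfl
  have e1 : 1 / (q : ℝ) = x ^ 16 := by
    rw [← xq_pow hq 16 (-1) (by norm_num), Real.rpow_neg_one, one_div]
  rw [e8, e4, e16]
  rw [e1] at hδq
  set η : ℝ := x ^ 2 with hη
  have hδ0 : 0 < |δ| := abs_pos.2 hδ
  -- the degree
  set N : ℕ := ⌈x ^ 8 / |δ|⌉₊ with hNdef
  have hN1 : x ^ 8 / |δ| ≤ N := Nat.le_ceil _
  have hN2 : (N : ℝ) < x ^ 8 / |δ| + 1 := Nat.ceil_lt_add_one (by positivity)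
  have hNδ1 : x ^ 8 ≤ N * |δ| := by
    rwa [div_le_iff₀ hδ0] at hN1
  have hNδ2 : (N : ℝ) * |δ| ≤ 2 * x ^ 8 := by
    have h : (N : ℝ) * |δ| ≤ (x ^ 8 / |δ| + 1) * |δ| :=
      mul_le_mul_of_nonneg_right hN2.le hδ0.le
    have h' : (x ^ 8 / |δ| + 1) * |δ| = x ^ 8 + |δ| := by field_simp
    have h3 : x ^ 16 ≤ x ^ 8 := pow_le_pow_of_le_one hx.le (by linarith) (by norm_num)
    linarith
  have hNx : 1 ≤ N * x ^ 8 := by
    have h3 : x ^ 8 ≤ N * x ^ 16 := hNδ1.trans (mul_le_mul_of_nonneg_left hδq (by positivity))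
    have h4 : x ^ 8 * 1 ≤ x ^ 8 * (N * x ^ 8) := by
      calc x ^ 8 * 1 = x ^ 8 := mul_one _
        _ ≤ N * x ^ 16 := h3
        _ = x ^ 8 * (N * x ^ 8) := by ring
    exact le_of_mul_le_mul_left h4 (by positivity)
  have hNpos : 1 ≤ N := by
    rcases Nat.eq_zero_or_pos N with h | h
    · rw [h] at hNx
      norm_num at hNx
    · exact h
  have hNr : (0 : ℝ) < N := by exact_mod_cast hNpos
  have hNinv : 1 / (N : ℝ) ≤ x ^ 8 := by
    rw [div_le_iff₀ hNr]
    linarith
  -- N η² ≥ √N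
  have hNη : √(N : ℝ) ≤ N * η ^ 2 := by
    have h3 : √(N : ℝ) * √(N : ℝ) = N := Real.mul_self_sqrt hNr.le
    have h4 : 0 < √(N : ℝ) := Real.sqrt_pos.2 hNr
    have h5 : 1 ≤ √(N : ℝ) * x ^ 4 := by
      by_contra hcon
      rw [not_le] at hcon
      have h6 : 0 ≤ √(N : ℝ) * x ^ 4 := by positivity
      have h7 : (√(N : ℝ) * x ^ 4) * (√(N : ℝ) * x ^ 4) < 1 := by nlinarith
      have h8 : (√(N : ℝ) * x ^ 4) * (√(N : ℝ) * x ^ 4) = N * x ^ 8 := by
        calc _ = (√(N : ℝ) * √(N : ℝ)) * x ^ 8 := by ring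
          _ = _ := by rw [h3]
      linarith
    calc √(N : ℝ) = √(N : ℝ) * 1 := (mul_one _).symm
      _ ≤ √(N : ℝ) * (√(N : ℝ) * x ^ 4) := mul_le_mul_of_nonneg_left h5 h4.le
      _ = (√(N : ℝ) * √(N : ℝ)) * x ^ 4 := by ring
      _ = N * η ^ 2 := by rw [h3, hη]; ring
  have hdec := decay N hNpos
  have hdec8 : √(Real.pi * N) * Real.exp (-(√N / 4)) ≤ 700 * x ^ 8 := by
    refine hdec.trans ?_
    calc (700 : ℝ) / N = 700 * (1 / N) := by ring
      _ ≤ 700 * x ^ 8 := by linarith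
  have hη0 : 0 < η := by positivity
  have hηx : η ≤ x / 2200 := by
    rw [hη]
    nlinarith
  have hη4 : η ≤ 1 / 4 := by linarith
  have hη2 : η ≤ 1 / 2 := by linarith
  have hgood : Good q N δ η := by
    refine ⟨hq, hNpos, hη0, hη4, ?_, ?_⟩
    · intro s hs y hy hys
      have h := h8 q hq8 δ hδ (by rw [e1]; exact hδq) N (by rw [e2]; exact hNδ1) s y
        (tf q N δ s) η e8.symm hs hy rfl
      exact h.1 hys
    · intro s hs y hy hys
      have h := h8 q hq8 δ hδ (by rw [e1]; exact hδq) N (by rw [e2]; exact hNδ1) s y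
        (tf q N δ s) η e8.symm hs hy rfl
      exact h.2.1 hys
  have hthird : ∀ s ∈ Icc η (1 - η), ∀ y ∈ Icc (0 : ℝ) 1,
      Real.exp (Ph q s / (q * δ) - Ph q y / (q * δ)) * (1 + tf q N δ s ^ 2) ^ N
        ≤ Real.exp (N / 100) := by
    intro s hs y hy
    have h := h8 q hq8 δ hδ (by rw [e1]; exact hδq) N (by rw [e2]; exact hNδ1) s y
        (tf q N δ s) η e8.symm hs hy rfl
    exact h.2.2
  have hper := h2
  obtain ⟨-, -, -, -, -, hP, -⟩ := hper
  refine ⟨N, gf q N δ η, mf q N δ η, ?_, ?_, ?_, ?_, ?_⟩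
  · -- degree bound
    have h3 : x ^ 4 * (2 * 16) ≤ 1 := by
      have : x ^ 4 ≤ x ^ 1 := pow_le_pow_of_le_one hx.le (by linarith) (by norm_num)
      rw [pow_one] at this
      nlinarith
    have h4 : 0 < x ^ 4 := by positivity
    have h5 : x ^ 8 = x ^ 4 * x ^ 4 := by ring
    rw [le_div_iff₀ (by norm_num)]
    nlinarith
  · -- the formula for m
    intro y
    have h3 := sum_form h2 hq hη0 hη2 (δ := δ) (N := N) y (fun _ => 1)
    simp only [mul_one] at h3
    rw [h3, mf_eq]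
    have h4 : (∫ s in η..(1 - η), (Af q N δ s : ℂ) * ∑ j ∈ Finset.range (2 * N + 1),
        ((2 * N).choose j : ℂ) / 4 ^ N * ee (((j : ℝ) - N) * (y - af q N δ s)))
        = ∫ s in η..(1 - η), ((Af q N δ s *
          Real.cos (Real.pi * (y - af q N δ s)) ^ (2 * N) : ℝ) : ℂ) := by
      congr 1
      funext s
      rw [sum_binom, Complex.ofReal_mul]
    rw [h4, intervalIntegral.integral_ofReal, Complex.ofReal_mul]
    rfl
  · intro y
    unfold mf
    apply intervalIntegral.integral_nonneg (by linarith)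
    intro s _
    exact mul_nonneg (Real.sqrt_nonneg _) (ef_nonneg _ _ _ _ _)
  · -- lower bound
    intro y hy1 hy2
    have h3 : mf q N δ η y = mf q N δ η (fr y) := by
      rw [fr_eq, mf_per h2 hq]
    rw [h3]
    refine le_trans ?_ (lower h2 hgood (fr y) hy1 hy2)
    have h4 : 1 - η ≤ √(1 / (1 + η)) := by
      apply Real.le_sqrt_of_sq_le
      rw [le_div_iff₀ (by linarith)]
      nlinarith
    have h5 : Real.exp (-(N * η ^ 2)) ≤ 700 * x ^ 8 := by
      have h6 : 1 ≤ √(Real.pi * N) := by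
        rw [Real.one_le_sqrt]
        have := Real.pi_gt_three
        have : (1 : ℝ) ≤ N := by exact_mod_cast hNpos
        nlinarith
      have h7 : Real.exp (-(N * η ^ 2)) ≤ Real.exp (-(√N / 4)) := by
        apply Real.exp_le_exp.2
        have := Real.sqrt_nonneg (N : ℝ)
        linarith
      have h8 := Real.exp_pos (-(√(N : ℝ) / 4))
      nlinarith
    have h6 : x ^ 8 ≤ x ^ 2 := pow_le_pow_of_le_one hx.le (by linarith) (by norm_num)
    have h7 : x ^ 2 * 2200 ≤ x := by nlinarith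
    have h8 : η = x ^ 2 := hη
    nlinarith
  · -- transfer
    intro y M Ψ hdiff hbd
    have hR : 0 < x ^ 4 := by positivity
    have hM0 : 0 ≤ M := (norm_nonneg _).trans (hbd 0 (mem_ball_self hR))
    -- reduction to `[0,1)`
    set y0 := Int.fract y with hy0
    have hyy : y = y0 + (⌊y⌋ : ℤ) := (Int.fract_add_floor y).symm
    have hy01 : y0 ∈ Icc (0 : ℝ) 1 := ⟨Int.fract_nonneg y, (Int.fract_lt_one y).le⟩
    have hPy : Ph q y = Ph q y0 := by
      have h3 : Ph q y = Ph q (y0 + ((⌊y⌋ : ℤ) : ℝ)) := congrArg (Ph q) hyy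
      rw [h3, per_int (hP q hq)]
    have hsum : ∑ l ∈ Finset.Icc (-(N : ℤ)) N, gf q N δ η l * ee (l * y) * Ψ ((l * δ : ℝ) : ℂ)
        = ∑ l ∈ Finset.Icc (-(N : ℤ)) N, gf q N δ η l * ee (l * y0) *
          (fun l : ℤ => Ψ ((l * δ : ℝ) : ℂ)) l := by
      refine Finset.sum_congr rfl fun l _ => ?_
      have : ee (l * y) = ee (l * y0) := by
        have h3 : (l : ℝ) * y = l * y0 + ((l * ⌊y⌋ : ℤ) : ℝ) := by
          have h4 : (l : ℝ) * y = l * (y0 + ((⌊y⌋ : ℤ) : ℝ)) :=
            congrArg (fun z => (l : ℝ) * z) hyy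
          rw [h4]
          push_cast
          ring
        rw [h3, ee_add, ee_int, mul_one]
      rw [this]
    rw [hPy, hsum, sum_form h2 hq hη0 hη2]
    have hPP : ∀ s : ℝ, (∑ j ∈ Finset.range (2 * N + 1), ((2 * N).choose j : ℂ) / 4 ^ N *
          (ee (((j : ℝ) - N) * (y0 - af q N δ s)) *
            (fun l : ℤ => Ψ ((l * δ : ℝ) : ℂ)) ((j : ℤ) - N)))
        = PP N (y0 - af q N δ s) δ Ψ := by
      intro s
      unfold PP
      refine Finset.sum_congr rfl fun j _ => ?_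
      simp only
      push_cast
      rfl
    simp only [hPP]
    have hNδ16 : (N : ℝ) * |δ| ≤ x ^ 4 / 16 := by
      have h3 : x ^ 4 * (2 * 16) ≤ 1 := by
        have : x ^ 4 ≤ x ^ 1 := pow_le_pow_of_le_one hx.le (by linarith) (by norm_num)
        rw [pow_one] at this
        nlinarith
      have h4 : 0 < x ^ 4 := by positivity
      have h5 : x ^ 8 = x ^ 4 * x ^ 4 := by ring
      rw [le_div_iff₀ (by norm_num)]
      nlinarith
    set ε : ℝ := N * |δ| / x ^ 4 with hε
    have hε0 : 0 ≤ ε := by positivity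
    have hε2 : ε ≤ 2 * x ^ 4 := by
      rw [hε, div_le_iff₀ hR]
      calc (N : ℝ) * |δ| ≤ 2 * x ^ 8 := hNδ2
        _ = 2 * x ^ 4 * x ^ 4 := by ring
    have hbound : ∀ s ∈ Icc η (1 - η),
        Real.exp (-(Ph q y0 / (q * δ))) * ‖(Af q N δ s : ℂ) * PP N (y0 - af q N δ s) δ Ψ‖
        ≤ √(Real.pi * N) * ef q N δ s y0 * ((1 + C * ε) * M)
          + √(Real.pi * N) * Real.exp (N / 100) * (C * (3 / 4) ^ N * M) := by
      intro s hs
      have h3 := PP_bound hC h9 N (y0 - af q N δ s) δ (x ^ 4) M Ψ hNpos hR hNδ16 hdiff hbd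
      rw [norm_mul, Complex.norm_real, Real.norm_of_nonneg (Af_nonneg q N δ s)]
      have h4 : Real.exp (-(Ph q y0 / (q * δ))) * Af q N δ s
          ≤ √(Real.pi * N) * Real.exp (N / 100) := by
        have h5 : Real.exp (-(Ph q y0 / (q * δ))) * Af q N δ s = √(Real.pi * N) *
            (Real.exp (Ph q s / (q * δ) - Ph q y0 / (q * δ)) * (1 + tf q N δ s ^ 2) ^ N) := by
          unfold Af kf
          rw [sub_eq_add_neg, Real.exp_add]
          ring
        rw [h5]
        exact mul_le_mul_of_nonneg_left (hthird s hs y0 hy01) (Real.sqrt_nonneg _)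
      have h5 := Af_cos q N δ s y0
      have hpos : 0 ≤ Real.exp (-(Ph q y0 / (q * δ))) * Af q N δ s :=
        mul_nonneg (Real.exp_pos _).le (Af_nonneg _ _ _ _)
      calc Real.exp (-(Ph q y0 / (q * δ))) * (Af q N δ s * ‖PP N (y0 - af q N δ s) δ Ψ‖)
          = (Real.exp (-(Ph q y0 / (q * δ))) * Af q N δ s) * ‖PP N (y0 - af q N δ s) δ Ψ‖ := by
            ring
        _ ≤ (Real.exp (-(Ph q y0 / (q * δ))) * Af q N δ s) *
            (Real.cos (Real.pi * (y0 - af q N δ s)) ^ (2 * N) * ((1 + C * (N * |δ| / x ^ 4)) * M)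
              + C * (3 / 4) ^ N * M) := mul_le_mul_of_nonneg_left h3 hpos
        _ = (Real.exp (-(kf q δ y0)) *
              (Af q N δ s * Real.cos (Real.pi * (y0 - af q N δ s)) ^ (2 * N)))
              * ((1 + C * ε) * M)
            + (Real.exp (-(Ph q y0 / (q * δ))) * Af q N δ s) * (C * (3 / 4) ^ N * M) := by
            unfold kf
            rw [hε]
            ring
        _ ≤ _ := by
            rw [h5]
            have h6 : 0 ≤ C * (3 / 4) ^ N * M := by positivity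
            linarith [mul_le_mul_of_nonneg_right h4 h6]
    -- the norm of the integral
    have hle : η ≤ 1 - η := by linarith
    have hu : Set.uIcc η (1 - η) = Icc η (1 - η) := Set.uIcc_of_le hle
    have hintef : IntervalIntegrable (fun s => √(Real.pi * N) * ef q N δ s y0) volume η (1 - η) := by
      apply ContinuousOn.intervalIntegrable
      rw [hu]
      exact continuousOn_const.mul (ef_contOn h2 y0 hq hη0)
    have hnorm : ‖(Real.exp (-(Ph q y0 / (q * δ))) : ℂ) *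
        ∫ s in η..(1 - η), (Af q N δ s : ℂ) * PP N (y0 - af q N δ s) δ Ψ‖
        ≤ ∫ s in η..(1 - η), (√(Real.pi * N) * ef q N δ s y0 * ((1 + C * ε) * M)
          + √(Real.pi * N) * Real.exp (N / 100) * (C * (3 / 4) ^ N * M)) := by
      rw [← intervalIntegral.integral_const_mul]
      apply intervalIntegral.norm_integral_le_of_norm_le hle
      · filter_upwards with s hs
        have h3 := hbound s ⟨hs.1.le, hs.2⟩
        rw [norm_mul]
        have h4 : ‖(Real.exp (-(Ph q y0 / (q * δ))) : ℂ)‖ = Real.exp (-(Ph q y0 / (q * δ))) := by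
          rw [Complex.norm_real, Real.norm_of_nonneg (Real.exp_pos _).le]
        rw [h4]
        exact h3
      · exact (hintef.mul_const _).add (continuous_const.intervalIntegrable _ _)
    refine hnorm.trans ?_
    rw [intervalIntegral.integral_add (hintef.mul_const _) (continuous_const.intervalIntegrable _ _),
      intervalIntegral.integral_mul_const, intervalIntegral.integral_const, smul_eq_mul]
    have hup := upper h2 hgood y0 hy01
    have h3 : √(1 / (1 - η)) ≤ 1 + η := by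
      rw [Real.sqrt_le_left (by linarith), div_le_iff₀ (by linarith)]
      nlinarith
    have h4 : √(Real.pi * N) * Real.exp (-(N * η ^ 2 / 4)) ≤ 700 * x ^ 8 := by
      refine le_trans (mul_le_mul_of_nonneg_left ?_ (Real.sqrt_nonneg _)) hdec8
      apply Real.exp_le_exp.2
      linarith
    have h5 : √(Real.pi * N) * Real.exp (N / 100) * (C * (3 / 4) ^ N * M)
        ≤ C * (700 * x ^ 8) * M := by
      calc √(Real.pi * N) * Real.exp (N / 100) * (C * (3 / 4) ^ N * M)
          = C * (√(Real.pi * N) * ((3 / 4) ^ N * Real.exp (N / 100))) * M := by ring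
        _ ≤ C * (√(Real.pi * N) * Real.exp (-(√N / 4))) * M := by
            apply mul_le_mul_of_nonneg_right _ hM0
            apply mul_le_mul_of_nonneg_left _ hC
            exact mul_le_mul_of_nonneg_left (three_quarter N) (Real.sqrt_nonneg _)
        _ ≤ C * (700 * x ^ 8) * M := by
            apply mul_le_mul_of_nonneg_right _ hM0
            exact mul_le_mul_of_nonneg_left hdec8 hC
    have h6 : ∫ s in η..(1 - η), √(Real.pi * N) * ef q N δ s y0 ≤ 1 + η + 700 * x ^ 8 := by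
      linarith
    have h7 : 0 ≤ (1 + C * ε) * M := by positivity
    have h8 : (1 - η - η) * (√(Real.pi * N) * Real.exp (N / 100) * (C * (3 / 4) ^ N * M))
        ≤ C * (700 * x ^ 8) * M := by
      refine le_trans ?_ h5
      have h9 : 0 ≤ √(Real.pi * N) * Real.exp (N / 100) * (C * (3 / 4) ^ N * M) := by positivity
      nlinarith
    have h9 : (∫ s in η..(1 - η), √(Real.pi * N) * ef q N δ s y0) * ((1 + C * ε) * M)
        ≤ (1 + η + 700 * x ^ 8) * ((1 + C * ε) * M) := mul_le_mul_of_nonneg_right h6 h7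
    have h10 : (1 + η + 700 * x ^ 8) * (1 + C * ε) + C * (700 * x ^ 8) ≤ 1 + x := by
      have hx8 : x ^ 8 ≤ x ^ 2 := pow_le_pow_of_le_one hx.le (by linarith) (by norm_num)
      have hx4 : x ^ 4 ≤ x ^ 2 := pow_le_pow_of_le_one hx.le (by linarith) (by norm_num)
      have hx2 : x ^ 2 * 2200 ≤ x := by nlinarith
      have hx2C : x ^ 2 * (2200 * (C + 1)) ≤ x := by nlinarith
      have ha : 1 + η + 700 * x ^ 8 ≤ 1 + 701 * x ^ 2 := by
        rw [hη]; linarith
      have hb : 1 + C * ε ≤ 1 + C * (2 * x ^ 2) := by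
        have : C * ε ≤ C * (2 * x ^ 2) := mul_le_mul_of_nonneg_left (by linarith) hC
        linarith
      have hc : C * (700 * x ^ 8) ≤ C * (700 * x ^ 2) := mul_le_mul_of_nonneg_left (by linarith) hC
      have hd : (1 + η + 700 * x ^ 8) * (1 + C * ε)
          ≤ (1 + 701 * x ^ 2) * (1 + C * (2 * x ^ 2)) :=
        mul_le_mul ha hb (by positivity) (by positivity)
      have hx2pos : 0 < x ^ 2 := by positivity
      have he : 701 * x ^ 2 ≤ 1 := by linarith
      have hf : (1 + 701 * x ^ 2) * (1 + C * (2 * x ^ 2))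
          ≤ 1 + 701 * x ^ 2 + 4 * C * x ^ 2 := by
        have : 701 * x ^ 2 * (C * (2 * x ^ 2)) ≤ 1 * (C * (2 * x ^ 2)) :=
          mul_le_mul_of_nonneg_right he (by positivity)
        nlinarith
      nlinarith
    calc _ ≤ (1 + η + 700 * x ^ 8) * ((1 + C * ε) * M) + C * (700 * x ^ 8) * M :=
          add_le_add h9 h8
      _ = ((1 + η + 700 * x ^ 8) * (1 + C * ε) + C * (700 * x ^ 8)) * M := by ring
      _ ≤ (1 + x) * M := mul_le_mul_of_nonneg_right h10 hM0

end Pool.Agent.Bishop
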